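import Pool.Agent.H95.GN.Targets

open Filter Topology Set

namespace Pool.Agent.H58.GN

open H95.GN

universe u

/-- every nonzero element is contained in a point of the Stone space -/
lemma exists_point {A : Type u} [BooleanAlgebra A] (a : A) (ha : a ≠ ⊥) :
    ∃ p : St A, p.1 a = true := by
  classical
  have hdis : Disjoint ((Order.PFilter.principal a : Order.PFilter A) : Set A)
      ((Order.Ideal.principal (⊥ : A) : Order.Ideal A) : Set A) := by
    rw [Set.disjoint_left]
    intro x hx hy
    have h1 : a ≤ x := Order.PFilter.mem_principal.mp hx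
    have h2 : x ≤ ⊥ := Order.Ideal.mem_principal.mp hy
    exact ha (le_bot_iff.mp (h1.trans h2))
  obtain ⟨J, hJ, _, hJa⟩ := DistribLattice.prime_ideal_of_disjoint_filter_ideal hdis
  have haJ : a ∉ J := by
    intro h
    exact (Set.disjoint_left.mp hJa) (Order.PFilter.mem_principal.mpr le_rfl) h
  refine ⟨⟨fun b => decide (b ∉ J), ?_, ?_, ?_⟩, ?_⟩
  · have : (⊤ : A) ∉ J := by
      intro h
      exact haJ (J.lower le_top h)
    simpa using this
  · intro x y
    by_cases hx : x ∈ J
    · have : x ⊓ y ∈ J := J.lower inf_le_left hx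
      simp [hx, this]
    · by_cases hy : y ∈ J
      · have : x ⊓ y ∈ J := J.lower inf_le_right hy
        simp [hy, this]
      · have : x ⊓ y ∉ J := by
          intro h
          rcases hJ.mem_or_mem h with h | h
          · exact hx h
          · exact hy h
        simp [hx, hy, this]
  · intro x
    by_cases hx : x ∈ J
    · have : xᶜ ∉ J := by
        intro h
        have h2 : x ⊔ xᶜ ∈ J := Order.Ideal.sup_mem hx h
        rw [sup_compl_eq_top] at h2
        exact haJ (J.lower le_top h2)
      simp [hx, this]
    · have : xᶜ ∈ J := by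
        rcases hJ.mem_or_compl_mem (x := x) with h | h
        · exact absurd h hx
        · exact h
      simp [hx, this]
  · simpa using haJ

lemma point_mono {A : Type u} [BooleanAlgebra A] (p : St A) {a b : A} (hab : a ≤ b)
    (h : p.1 a = true) : p.1 b = true := by
  have h1 := p.2.2.1 a b
  rw [inf_eq_left.mpr hab, h] at h1
  simpa using h1.symm

theorem pf_PS : T_PS := by
  intro A _ a hdec hne
  have hcl : ∀ n, IsClosed {p : St A | p.1 (a n) = true} := fun n =>
    isClosed_eq (continuous_ev (a n)) continuous_const
  have hnon : (⋂ n, {p : St A | p.1 (a n) = true}).Nonempty := by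
    refine IsCompact.nonempty_iInter_of_sequence_nonempty_isCompact_isClosed _ ?_ ?_ ?_ hcl
    · intro n p hp
      exact point_mono p (hdec n) hp
    · intro n
      obtain ⟨p, hp⟩ := exists_point (a n) (hne n)
      exact ⟨p, hp⟩
    · exact (hcl 0).isCompact
  obtain ⟨p, hp⟩ := hnon
  refine ⟨p, fun n => ?_⟩
  exact Set.mem_iInter.mp hp n

end Pool.Agent.H58.GN
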